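import Mathlib

/-!
# MP_09fd01_co : a `γ`-graph sequence which is a cycle of length 2

We exhibit a graph `G` on 12 vertices with `G(γ)(γ) ≅ G` and `G(γ) ≇ G`.
-/

namespace Pool.Agent.Results.MP_09fd01_co.GammaCycleTwo

/-- `S` is a dominating set of `G`: every vertex lies in `S` or has a neighbour in `S`. -/
def Dominating {V : Type} (G : SimpleGraph V) (S : Finset V) : Prop :=
  ∀ v : V, v ∈ S ∨ ∃ u ∈ S, G.Adj u v

/-- `S` is a `γ`-set of `G`: a dominating set of least possible size. -/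
def IsGammaSet {V : Type} (G : SimpleGraph V) (S : Finset V) : Prop :=
  Dominating G S ∧ ∀ T : Finset V, Dominating G T → S.card ≤ T.card

/-- `S₂` is obtained from `S₁` by sliding one element along an edge of `G`. -/
def Slide {V : Type} (G : SimpleGraph V) (S₁ S₂ : Finset V) : Prop :=
  ∃ v₁ ∈ S₁, ∃ v₂ ∈ S₂, G.Adj v₁ v₂ ∧ (S₂ : Set V) = ((S₁ : Set V) \ {v₁}) ∪ {v₂}

theorem slide_symm {V : Type} (G : SimpleGraph V) {S₁ S₂ : Finset V}
    (h₁ : IsGammaSet G S₁) (h₂ : IsGammaSet G S₂) (h : Slide G S₁ S₂) : Slide G S₂ S₁ := by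
  classical
  obtain ⟨v, hv, w, hw, hvw, he⟩ := h
  have hcard : S₁.card = S₂.card := le_antisymm (h₁.2 _ h₂.1) (h₂.2 _ h₁.1)
  have he' : S₂ = insert w (S₁.erase v) := by
    apply Finset.coe_injective
    rw [he]
    ext x
    simp [and_comm]
  have hw1 : w ∉ S₁ := by
    intro hw1
    have : insert w (S₁.erase v) = S₁.erase v :=
      Finset.insert_eq_of_mem (Finset.mem_erase.2 ⟨hvw.ne.symm, hw1⟩)
    rw [this] at he'
    have := Finset.card_erase_lt_of_mem hv
    rw [← he'] at this
    omega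
  refine ⟨w, hw, v, hv, hvw.symm, ?_⟩
  ext x
  have hx := Set.ext_iff.1 he x
  simp only [Finset.mem_coe, Set.mem_union, Set.mem_sdiff, Set.mem_singleton_iff] at hx ⊢
  constructor
  · intro h
    by_cases hxv : x = v
    · exact Or.inr hxv
    · refine Or.inl ⟨hx.2 (Or.inl ⟨h, hxv⟩), ?_⟩
      rintro rfl
      exact hw1 h
  · rintro (⟨h, hxw⟩ | rfl)
    · rcases hx.1 h with h | h
      · exact h.1
      · exact absurd h hxw
    · exact hv

/-- The `γ`-graph `G(γ)`: its vertices are the `γ`-sets of `G`, and two distinct `γ`-sets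
`S₁`, `S₂` are adjacent iff `S₂ = (S₁ \ {v₁}) ∪ {v₂}` for some `v₁ ∈ S₁`, `v₂ ∈ S₂` with
`v₁v₂` an edge of `G`. -/
def gammaGraph {V : Type} (G : SimpleGraph V) : SimpleGraph {S : Finset V // IsGammaSet G S} where
  Adj S₁ S₂ := S₁ ≠ S₂ ∧ Slide G S₁.1 S₂.1
  symm := ⟨fun S₁ S₂ h => ⟨h.1.symm, slide_symm G S₁.2 S₂.2 h.2⟩⟩
  loopless := ⟨fun _ h => h.1 rfl⟩

/-- The `γ`-graph sequence of `G`: `G₀ = G` and `G_{i+1} = G_i(γ)`.  Each term is a graph
together with its vertex type. -/
def gammaSeq {V : Type} (G : SimpleGraph V) : ℕ → (Σ W : Type, SimpleGraph W)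
  | 0 => ⟨V, G⟩
  | i + 1 => ⟨{S : Finset (gammaSeq G i).1 // IsGammaSet (gammaSeq G i).2 S},
      gammaGraph (gammaSeq G i).2⟩

/-- The `γ`-graph sequence of `G` is a cycle of length `k`: `G_k ≅ G₀` and `G_i ≇ G₀` for
`0 < i < k`. -/
def IsGammaCycle {V : Type} (G : SimpleGraph V) (k : ℕ) : Prop :=
  Nonempty ((gammaSeq G k).2 ≃g (gammaSeq G 0).2) ∧
    ∀ i, 0 < i → i < k → IsEmpty ((gammaSeq G i).2 ≃g (gammaSeq G 0).2)

/-! ### Isomorphic graphs have isomorphic `γ`-graphs -/

theorem dom_map {V W : Type} {G : SimpleGraph V} {H : SimpleGraph W} (e : G ≃g H)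
    {S : Finset V} (h : Dominating G S) : Dominating H (S.map e.toEquiv.toEmbedding) := by
  intro w
  rcases h (e.symm w) with h | ⟨u, hu, huw⟩
  · left
    rw [Finset.mem_map]
    exact ⟨_, h, e.apply_symm_apply w⟩
  · right
    refine ⟨e u, Finset.mem_map.2 ⟨u, hu, rfl⟩, ?_⟩
    have := e.map_adj_iff.2 huw
    rwa [e.apply_symm_apply] at this

theorem map_symm_map {V W : Type} {G : SimpleGraph V} {H : SimpleGraph W} (e : G ≃g H)
    (S : Finset V) :
    (S.map e.toEquiv.toEmbedding).map e.symm.toEquiv.toEmbedding = S := by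
  ext x
  simp only [Finset.mem_map]
  constructor
  · rintro ⟨y, ⟨z, hz, rfl⟩, rfl⟩
    have : e.symm.toEquiv.toEmbedding (e.toEquiv.toEmbedding z) = z := e.symm_apply_apply z
    rw [this]; exact hz
  · intro hx
    exact ⟨_, ⟨x, hx, rfl⟩, e.symm_apply_apply x⟩

theorem gam_map {V W : Type} {G : SimpleGraph V} {H : SimpleGraph W} (e : G ≃g H)
    {S : Finset V} (h : IsGammaSet G S) : IsGammaSet H (S.map e.toEquiv.toEmbedding) := by
  refine ⟨dom_map e h.1, fun T hT => ?_⟩
  rw [Finset.card_map]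
  have := h.2 _ (dom_map e.symm hT)
  rwa [Finset.card_map] at this

theorem slide_map {V W : Type} {G : SimpleGraph V} {H : SimpleGraph W} (e : G ≃g H)
    {S T : Finset V} (h : Slide G S T) :
    Slide H (S.map e.toEquiv.toEmbedding) (T.map e.toEquiv.toEmbedding) := by
  obtain ⟨v, hv, w, hw, hvw, he⟩ := h
  refine ⟨e v, Finset.mem_map.2 ⟨v, hv, rfl⟩, e w, Finset.mem_map.2 ⟨w, hw, rfl⟩,
    e.map_adj_iff.2 hvw, ?_⟩
  rw [Finset.coe_map, Finset.coe_map, he]
  change e '' _ = e '' _ \ _ ∪ _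
  rw [Set.image_union, Set.image_sdiff e.injective, Set.image_singleton, Set.image_singleton]

/-- A graph isomorphism induces an isomorphism of `γ`-graphs. -/
def gammaIso {V W : Type} {G : SimpleGraph V} {H : SimpleGraph W} (e : G ≃g H) :
    gammaGraph G ≃g gammaGraph H where
  toFun S := ⟨S.1.map e.toEquiv.toEmbedding, gam_map e S.2⟩
  invFun T := ⟨T.1.map e.symm.toEquiv.toEmbedding, gam_map e.symm T.2⟩
  left_inv S := Subtype.ext (map_symm_map e S.1)
  right_inv T := Subtype.ext (map_symm_map e.symm T.1)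
  map_rel_iff' := by
    rintro ⟨S, hS⟩ ⟨T, hT⟩
    constructor
    · rintro ⟨hne, h⟩
      refine ⟨?_, ?_⟩
      · intro h'
        apply hne
        rw [h']
      · have := slide_map e.symm h
        change Slide G ((S.map e.toEquiv.toEmbedding).map e.symm.toEquiv.toEmbedding)
          ((T.map e.toEquiv.toEmbedding).map e.symm.toEquiv.toEmbedding) at this
        rwa [map_symm_map, map_symm_map] at this
    · rintro ⟨hne, h⟩
      refine ⟨?_, slide_map e h⟩
      intro h'
      apply hne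
      have := congrArg (fun X : {S : Finset W // IsGammaSet H S} =>
        X.1.map e.symm.toEquiv.toEmbedding) h'
      simp only [Equiv.coe_fn_mk] at this
      rw [map_symm_map, map_symm_map] at this
      exact Subtype.ext this

/-! ### A certificate for `γ`-graphs of graphs on 12 vertices whose `γ`-sets have size 3 -/

theorem exists_triple {V : Type} [DecidableEq V] (S : Finset V) (hne : S.Nonempty)
    (h : S.card ≤ 3) : ∃ a b c, S = {a, b, c} := by
  have h0 : 0 < S.card := hne.card_pos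
  have h' : S.card = 1 ∨ S.card = 2 ∨ S.card = 3 := by omega
  rcases h' with h | h | h
  · obtain ⟨a, rfl⟩ := Finset.card_eq_one.1 h
    exact ⟨a, a, a, by simp⟩
  · obtain ⟨a, b, -, rfl⟩ := Finset.card_eq_two.1 h
    exact ⟨a, b, b, by simp⟩
  · obtain ⟨a, b, c, -, -, -, rfl⟩ := Finset.card_eq_three.1 h
    exact ⟨a, b, c, rfl⟩

/-- Relabelling the `γ`-sets: a list `g` of all `γ`-sets (each of size 3) of a graph `G` on
`Fin n` such that the slide relation between them is the adjacency of `H`. -/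
theorem certificate {n m : ℕ} [NeZero n] [NeZero m] (G : SimpleGraph (Fin n))
    (H : SimpleGraph (Fin m)) (g : Fin m → Finset (Fin n)) (hinj : ∀ i j, g i = g j → i = j)
    (hcard : ∀ i, (g i).card = 3)
    (hdom : ∀ i, Dominating G (g i))
    (hall : ∀ a b c : Fin n, Dominating G {a, b, c} → ∃ i, g i = {a, b, c})
    (hadj : ∀ i j, H.Adj i j ↔ ∃ v ∈ g i, ∃ w ∈ g j, G.Adj v w ∧ g j = insert w ((g i).erase v)) :
    Nonempty (gammaGraph G ≃g H) := by
  have hsmall : ∀ T : Finset (Fin n), Dominating G T → T.card ≤ 3 → ∃ i, g i = T := by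
    intro T hT hc
    have hne : T.Nonempty := by
      rcases hT 0 with h | ⟨u, hu, -⟩
      · exact ⟨_, h⟩
      · exact ⟨_, hu⟩
    obtain ⟨a, b, c, rfl⟩ := exists_triple T hne hc
    exact hall a b c hT
  have hg : ∀ i, IsGammaSet G (g i) := by
    intro i
    refine ⟨hdom i, fun T hT => ?_⟩
    by_contra hlt
    push Not at hlt
    rw [hcard] at hlt
    obtain ⟨j, rfl⟩ := hsmall T hT hlt.le
    rw [hcard] at hlt
    exact lt_irrefl _ hlt
  have hsurj : ∀ T, IsGammaSet G T → ∃ i, g i = T := fun T hT =>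
    hsmall T hT.1 ((hT.2 _ (hdom 0)).trans (hcard 0).le)
  let f : Fin m → {S : Finset (Fin n) // IsGammaSet G S} := fun i => ⟨g i, hg i⟩
  have hf : Function.Bijective f := by
    constructor
    · intro i j h
      exact hinj i j (congrArg Subtype.val h)
    · rintro ⟨T, hT⟩
      obtain ⟨i, hi⟩ := hsurj T hT
      exact ⟨i, Subtype.ext hi⟩
  have key : ∀ i j, (gammaGraph G).Adj (f i) (f j) ↔ H.Adj i j := by
    intro i j
    rw [hadj]
    constructor
    · rintro ⟨-, v, hv, w, hw, hvw, he⟩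
      refine ⟨v, hv, w, hw, hvw, ?_⟩
      apply Finset.coe_injective
      rw [show ((g j : Finset (Fin n)) : Set (Fin n)) = _ from he]
      ext x
      simp [f, and_comm]
    · intro h
      have hij : i ≠ j := by
        rintro rfl
        exact H.loopless.irrefl i ((hadj i i).2 h)
      obtain ⟨v, hv, w, hw, hvw, he⟩ := h
      refine ⟨fun h => hij (hinj i j (congrArg Subtype.val h)), v, hv, w, hw, hvw, ?_⟩
      change ((g j : Finset (Fin n)) : Set (Fin n)) = _
      rw [he]
      ext x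
      simp [f, and_comm]
  exact ⟨(⟨Equiv.ofBijective f hf, fun {i j} => key i j⟩ : H ≃g gammaGraph G).symm⟩

/-! ### The two graphs -/

/-- Adjacency matrix of `A`, row by row in binary. -/
def rowA : Fin 12 → ℕ := ![1034, 1053, 2578, 1027, 6, 1344, 1440, 576, 1120, 2180, 363, 516]

/-- Adjacency matrix of `B`, row by row in binary. -/
def rowB : Fin 12 → ℕ := ![386, 409, 104, 118, 10, 76, 3116, 259, 643, 1280, 2624, 1088]

/-- The graph `A` (20 edges). -/
def A : SimpleGraph (Fin 12) where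
  Adj i j := (rowA i).testBit j.1 = true
  symm := ⟨by decide +kernel⟩
  loopless := ⟨by decide +kernel⟩

/-- The graph `B` (20 edges), isomorphic to `A(γ)`. -/
def B : SimpleGraph (Fin 12) where
  Adj i j := (rowB i).testBit j.1 = true
  symm := ⟨by decide +kernel⟩
  loopless := ⟨by decide +kernel⟩

instance : DecidableRel A.Adj := fun i j =>
  inferInstanceAs (Decidable ((rowA i).testBit j.1 = true))

instance : DecidableRel B.Adj := fun i j =>
  inferInstanceAs (Decidable ((rowB i).testBit j.1 = true))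

instance {n : ℕ} (G : SimpleGraph (Fin n)) [DecidableRel G.Adj] (S : Finset (Fin n)) :
    Decidable (Dominating G S) :=
  inferInstanceAs (Decidable (∀ v : Fin n, v ∈ S ∨ ∃ u ∈ S, G.Adj u v))

/-- The `γ`-sets of `A`. -/
def gA : Fin 12 → Finset (Fin 12) := ![{0, 2, 6}, {1, 2, 6}, {1, 5, 9}, {1, 6, 9}, {1, 6, 11}, {1, 8, 9}, {1, 9, 10}, {2, 3, 6}, {2, 6, 10}, {2, 7, 10}, {2, 9, 10}, {4, 9, 10}]

/-- The `γ`-sets of `B`. -/
def gB : Fin 12 → Finset (Fin 12) := ![{0, 3, 10}, {3, 8, 10}, {3, 6, 8}, {3, 7, 10}, {3, 8, 11}, {1, 2, 10}, {1, 6, 10}, {1, 6, 9}, {1, 5, 10}, {1, 6, 8}, {1, 3, 10}, {4, 6, 8}]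

theorem isoAB : Nonempty (gammaGraph A ≃g B) :=
  certificate A B gA (by decide +kernel) (by decide +kernel) (by decide +kernel)
    (by decide +kernel) (by decide +kernel)

theorem isoBA : Nonempty (gammaGraph B ≃g A) :=
  certificate B A gB (by decide +kernel) (by decide +kernel) (by decide +kernel)
    (by decide +kernel) (by decide +kernel)

theorem degA : ∃ v, A.degree v = 6 := by decide +kernel

theorem degB : ∀ v, B.degree v < 6 := by decide +kernel

theorem not_iso : IsEmpty (B ≃g A) := by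
  constructor
  intro e
  obtain ⟨v, hv⟩ := degA
  have := degB (e.symm v)
  rw [SimpleGraph.Iso.degree_eq e.symm v] at this
  omega

/-- There is a (finite, nonempty) graph whose `γ`-graph sequence is a cycle of length `2`. -/
theorem result : ∃ k ≥ 2, ∃ n : ℕ, 0 < n ∧ ∃ G : SimpleGraph (Fin n), IsGammaCycle G k := by
  refine ⟨2, le_rfl, 12, by norm_num, A, ?_, ?_⟩
  · obtain ⟨e⟩ := isoAB
    obtain ⟨e'⟩ := isoBA
    exact ⟨(gammaIso e).trans e'⟩
  · intro i h0 h2
    have hi : i = 1 := by omega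
    subst hi
    constructor
    intro (e' : gammaGraph A ≃g A)
    obtain ⟨e⟩ := isoAB
    exact not_iso.false (e.symm.trans e')

end Pool.Agent.Results.MP_09fd01_co.GammaCycleTwo
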